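import Pool.Agent.Helper52.Hemi.Goals

set_option autoImplicit false

open Classical

namespace Pool.Agent.Helper50.Hemi

theorem exists_psi (k : Type) [Field k] [Fintype k] (h3 : (3 : k) = 0) (u0 : k)
    (hu : ∀ v : k, v ^ 3 - v ≠ u0) :
    ∃ ψ : AddChar k ℂ, (∀ x, ψ (x ^ 3) = ψ x) ∧ ψ u0 ≠ 1 := by
  let f : k →+ k :=
    { toFun := fun v => v ^ 3 - v
      map_zero' := by simp
      map_add' := by intro x y; linear_combination (x ^ 2 * y + x * y ^ 2) * h3 }
  let I : AddSubgroup k := f.range
  have hne : (QuotientAddGroup.mk u0 : k ⧸ I) ≠ 0 := by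
    intro h
    rw [QuotientAddGroup.eq_zero_iff] at h
    obtain ⟨v, hv⟩ := h
    exact hu v hv
  obtain ⟨χ, hχ⟩ := (AddChar.exists_apply_ne_zero (α := k ⧸ I)).2 hne
  refine ⟨χ.compAddMonoidHom (QuotientAddGroup.mk' I), ?_, ?_⟩
  · intro x
    have h1 : (QuotientAddGroup.mk' I) (x ^ 3) = (QuotientAddGroup.mk' I) x := by
      have h2 : (QuotientAddGroup.mk' I) (x ^ 3 - x) = 0 := by
        rw [QuotientAddGroup.mk'_apply, QuotientAddGroup.eq_zero_iff]
        exact ⟨x, rfl⟩
      rw [map_sub] at h2
      exact sub_eq_zero.1 h2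
    rw [AddChar.compAddMonoidHom_apply, AddChar.compAddMonoidHom_apply, h1]
  · rw [AddChar.compAddMonoidHom_apply]
    exact hχ

theorem cube_bij (k : Type) [Field k] [Fintype k] (h3 : (3 : k) = 0) :
    Function.Bijective (fun x : k => x ^ 3) := by
  have hinj : Function.Injective (fun x : k => x ^ 3) := by
    intro x y h
    simp only at h
    have h1 : (x - y) ^ 3 = 0 := by
      linear_combination h - (x ^ 2 * y - x * y ^ 2) * h3
    exact sub_eq_zero.1 (pow_eq_zero_iff (by norm_num) |>.1 h1)
  exact ⟨hinj, Finite.injective_iff_surjective.1 hinj⟩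

section
variable {k F : Type} [Field k] [Fintype k] [Field F] [Fintype F] [Algebra k F]

theorem norm_eq (hr : Module.finrank k F = 2) (x : F) :
    algebraMap k F (Algebra.norm k x) = x * x ^ Fintype.card k := by
  rw [FiniteField.algebraMap_norm_eq_prod_pow, hr, Finset.prod_range_succ, Finset.prod_range_one,
    Nat.card_eq_fintype_card]
  simp

theorem trace_eq (hr : Module.finrank k F = 2) (x : F) :
    algebraMap k F (Algebra.trace k F x) = x + x ^ Fintype.card k := by
  rw [FiniteField.algebraMap_trace_eq_sum_pow, hr, Finset.sum_range_succ, Finset.sum_range_one,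
    Nat.card_eq_fintype_card]
  simp

omit [Fintype F] in
theorem bar_add (x y : F) :
    (x + y) ^ Fintype.card k = x ^ Fintype.card k + y ^ Fintype.card k :=
  (FiniteField.frobeniusAlgHom k F).map_add x y

omit [Fintype F] in
theorem bar_alg (c : k) : (algebraMap k F c) ^ Fintype.card k = algebraMap k F c :=
  (FiniteField.frobeniusAlgHom k F).commutes c

theorem bar_bar (hr : Module.finrank k F = 2) (x : F) :
    (x ^ Fintype.card k) ^ Fintype.card k = x := by
  have h := bar_alg (k := k) (F := F) (Algebra.trace k F x)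
  rw [trace_eq hr, bar_add] at h
  linear_combination h

theorem trace_cube (h3 : (3 : k) = 0) (hr : Module.finrank k F = 2) (x : F) :
    Algebra.trace k F (x ^ 3) = (Algebra.trace k F x) ^ 3 := by
  apply (algebraMap k F).injective
  have h3' : (3 : F) = 0 := by
    rw [← map_ofNat (algebraMap k F) 3, h3, map_zero]
  have h1 : (x ^ 3) ^ Fintype.card k = (x ^ Fintype.card k) ^ 3 := by
    rw [← pow_mul, mul_comm 3, pow_mul]
  rw [map_pow (algebraMap k F), trace_eq hr, trace_eq hr, h1]
  linear_combination -(x ^ 2 * (x ^ Fintype.card k) + x * (x ^ Fintype.card k) ^ 2) * h3'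

omit [Fintype k] in
theorem norm_alg (hr : Module.finrank k F = 2) (c : k) (x : F) :
    Algebra.norm k (algebraMap k F c * x) = c ^ 2 * Algebra.norm k x := by
  rw [map_mul, Algebra.norm_algebraMap, hr]

omit [Fintype k] [Fintype F] in
theorem trace_alg (c : k) (x : F) :
    Algebra.trace k F (algebraMap k F c * x) = c * Algebra.trace k F x := by
  rw [← Algebra.smul_def, map_smul, smul_eq_mul]

theorem trace_bar (hr : Module.finrank k F = 2) (x : F) :
    Algebra.trace k F (x ^ Fintype.card k) = Algebra.trace k F x := by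
  apply (algebraMap k F).injective
  rw [trace_eq hr, trace_eq hr, bar_bar hr, add_comm]

/-- sums over `k`-scalings. -/
theorem sum_scale (w h : F → ℂ) (hw : ∀ ρ : k, ρ ≠ 0 → ∀ x, w (algebraMap k F ρ * x) = w x) :
    ∑ x ∈ Finset.univ.erase (0 : F), w x * ∑ ρ : k, h (algebraMap k F ρ * x) =
      (∑ x ∈ Finset.univ.erase (0 : F), w x) * h 0 +
        ((Fintype.card k : ℂ) - 1) * ∑ x ∈ Finset.univ.erase (0 : F), w x * h x := by
  have h1 : ∀ x ∈ Finset.univ.erase (0 : F), w x * ∑ ρ : k, h (algebraMap k F ρ * x) =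
      w x * h 0 + ∑ ρ ∈ Finset.univ.erase (0 : k), w x * h (algebraMap k F ρ * x) := by
    intro x _
    rw [← Finset.add_sum_erase Finset.univ _ (Finset.mem_univ (0 : k)), mul_add, map_zero,
      zero_mul, Finset.mul_sum]
  rw [Finset.sum_congr rfl h1, Finset.sum_add_distrib, Finset.sum_mul, Finset.sum_comm]
  congr 1
  have h2 : ∀ ρ ∈ Finset.univ.erase (0 : k),
      ∑ x ∈ Finset.univ.erase (0 : F), w x * h (algebraMap k F ρ * x) =
      ∑ x ∈ Finset.univ.erase (0 : F), w x * h x := by
    intro ρ hρ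
    have hρ0 : ρ ≠ 0 := Finset.ne_of_mem_erase hρ
    have hρ1 : algebraMap k F ρ ≠ 0 := by
      intro h
      exact hρ0 ((map_eq_zero _).1 h)
    refine Finset.sum_bij' (fun x _ => algebraMap k F ρ * x)
      (fun x _ => (algebraMap k F ρ)⁻¹ * x) ?_ ?_ ?_ ?_ ?_
    · intro x hx
      simp only [Finset.mem_erase, Finset.mem_univ, and_true] at hx ⊢
      exact mul_ne_zero hρ1 hx
    · intro x hx
      simp only [Finset.mem_erase, Finset.mem_univ, and_true] at hx ⊢
      exact mul_ne_zero (inv_ne_zero hρ1) hx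
    · intro x _
      rw [inv_mul_cancel_left₀ hρ1]
    · intro x _
      rw [mul_inv_cancel_left₀ hρ1]
    · intro x _
      rw [hw ρ hρ0]
  rw [Finset.sum_congr rfl h2, Finset.sum_const, Finset.card_erase_of_mem (Finset.mem_univ _),
    Finset.card_univ, nsmul_eq_mul, Nat.cast_sub Fintype.card_pos, Nat.cast_one]

/-- the sum of `ψ (a N x)`. -/
theorem sum_norm (hr : Module.finrank k F = 2) (ψ : AddChar k ℂ) (hψ : ψ ≠ 1) (a : k)
    (ha : a ≠ 0) : ∑ x : F, ψ (a * Algebra.norm k x) = - (Fintype.card k : ℂ) := by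
  have hinv : ∀ b : k, b ≠ 0 → ∑ x : F, ψ (b * Algebra.norm k x) =
      ∑ x : F, ψ (a * Algebra.norm k x) := by
    intro b hb
    obtain ⟨y, hy⟩ := FiniteField.norm_surjective k F (b / a)
    have hy0 : y ≠ 0 := by
      rintro rfl
      rw [Algebra.norm_zero] at hy
      exact (div_ne_zero hb ha) hy.symm
    refine Fintype.sum_bijective (fun x : F => y * x) ?_ _ _ ?_
    · exact mulLeft_bijective₀ y hy0
    · intro x
      rw [map_mul (Algebra.norm k), hy]
      congr 1
      field_simp
  have hcardF : (Fintype.card F : ℂ) = (Fintype.card k : ℂ) ^ 2 := by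
    rw [Module.card_eq_pow_finrank (K := k) (V := F), hr]
    push_cast
    rfl
  have hprim : ∀ c : k, c ≠ 0 → ∑ b : k, ψ (b * c) = 0 := by
    intro c hc
    have h2 : ∑ b : k, ψ b = 0 := AddChar.sum_eq_zero_of_ne_one hψ
    rw [← h2]
    exact Fintype.sum_bijective (fun b : k => b * c) (mulRight_bijective₀ c hc) _ _ (fun _ => rfl)
  have htot : ∑ b : k, ∑ x : F, ψ (b * Algebra.norm k x) = (Fintype.card k : ℂ) := by
    rw [Finset.sum_comm]
    have : ∀ x : F, ∑ b : k, ψ (b * Algebra.norm k x) =
        if x = 0 then (Fintype.card k : ℂ) else 0 := by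
      intro x
      split_ifs with hx
      · subst hx
        simp [Algebra.norm_zero]
      · exact hprim _ (Algebra.norm_ne_zero_iff.2 hx)
    rw [Finset.sum_congr rfl (fun x _ => this x)]
    simp
  rw [← Finset.add_sum_erase Finset.univ _ (Finset.mem_univ (0 : k)),
    Finset.sum_congr rfl (fun b hb => hinv b (Finset.ne_of_mem_erase hb)), Finset.sum_const,
    Finset.card_erase_of_mem (Finset.mem_univ _), Finset.card_univ, nsmul_eq_mul,
    Nat.cast_sub Fintype.card_pos, Nat.cast_one] at htot
  simp only [zero_mul, AddChar.map_zero_eq_one, Finset.sum_const, Finset.card_univ, nsmul_eq_mul,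
    mul_one] at htot
  rw [hcardF] at htot
  have hq1 : (Fintype.card k : ℂ) - 1 ≠ 0 := by
    have : 1 < Fintype.card k := Fintype.one_lt_card
    intro h
    have h' : (Fintype.card k : ℂ) = 1 := by linear_combination h
    have h'' : Fintype.card k = 1 := by exact_mod_cast h'
    omega
  apply mul_left_cancel₀ hq1
  linear_combination htot

/-- the Gauss type sum over `F`. -/
theorem sum_quad (hr : Module.finrank k F = 2) (ψ : AddChar k ℂ) (hψ : ψ ≠ 1) (a : k)
    (ha : a ≠ 0) (μ : F) :
    ∑ x : F, ψ (a * Algebra.norm k x + Algebra.trace k F (μ * x)) =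
      - (Fintype.card k : ℂ) * ψ (- (Algebra.norm k μ / a)) := by
  have key : ∀ x : F, a * Algebra.norm k x + Algebra.trace k F (μ * x) =
      a * Algebra.norm k (x + algebraMap k F a⁻¹ * μ ^ Fintype.card k) +
        - (Algebra.norm k μ / a) := by
    intro x
    apply (algebraMap k F).injective
    have ha' : algebraMap k F a ≠ 0 := by
      intro h
      exact ha ((map_eq_zero _).1 h)
    simp only [map_add, map_mul, map_neg, map_div₀, norm_eq hr, trace_eq hr, bar_add, mul_pow,
      bar_bar hr, map_inv₀]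
    rw [inv_pow, bar_alg]
    field_simp
    ring
  rw [Finset.sum_congr rfl (fun x _ => by rw [key x, AddChar.map_add_eq_mul]), ← Finset.sum_mul,
    ← sum_norm hr ψ hψ a ha]
  congr 1
  exact Fintype.sum_bijective (fun x : F => x + algebraMap k F a⁻¹ * μ ^ Fintype.card k)
    (Equiv.addRight _).bijective _ _ (fun _ => rfl)

end

end Pool.Agent.Helper50.Hemi
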