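import Pool.Agent.Helper50.Hemi.Base

set_option autoImplicit false

open Classical

namespace Pool.Agent.Helper50.Hemi

open Pool.Agent.Helper52.Hemi

section
variable {k F : Type} [Field k] [Fintype k] [Field F] [Fintype F] [Algebra k F]

/-- `W(λ)` as a sum over scalings of `λ`. -/
theorem WW_eq (hAS : GoalAS) (h3 : (3 : k) = 0) (hr : Module.finrank k F = 2)
    (δ : F) (hδ : δ ≠ 0) (hδq : δ ^ Fintype.card k = -δ) (β : k) (hβ : β ≠ 0) (ν : F)
    (ψ : AddChar k ℂ) (hψ1 : ψ ≠ 1) (hψ : ∀ x, ψ (x ^ 3) = ψ x) (tt : k)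
    (htt : tt ^ 3 = - (β ^ 3 / Algebra.norm k δ)) (μ : F) (hμ : μ ^ 3 = ν / δ)
    (lam : F) (hlam : lam ≠ 0) :
    (WW k F δ β ν lam : ℂ) =
      ∑ ρ : k, ψ (tt * Algebra.norm k (algebraMap k F ρ * lam) +
        Algebra.trace k F (μ * (algebraMap k F ρ * lam))) +
      ∑ ρ : k, ψ (-tt * Algebra.norm k (algebraMap k F ρ * lam) +
        Algebra.trace k F (μ * (algebraMap k F ρ * lam))) := by
  have hNl : Algebra.norm k lam ≠ 0 := Algebra.norm_ne_zero_iff.2 hlam
  have hNd : Algebra.norm k δ ≠ 0 := Algebra.norm_ne_zero_iff.2 hδ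
  have ht : Algebra.norm k lam * β / Algebra.norm k δ ≠ 0 :=
    div_ne_zero (mul_ne_zero hNl hβ) hNd
  have hNδ : algebraMap k F (Algebra.norm k δ) = -δ ^ 2 := by
    rw [norm_eq hr, hδq]; ring
  unfold WW
  rw [hAS k h3 ψ hψ1 hψ _ (Algebra.trace k F (lam ^ 3 * ν / δ ^ 3)) ht]
  set t := Algebra.norm k lam * β / Algebra.norm k δ with htdef
  set κ := Algebra.trace k F (lam ^ 3 * ν / δ ^ 3) with hκdef
  -- the substitution
  have hbij : Function.Bijective (fun ρ : k => -(Algebra.norm k δ) * ρ ^ 3) := by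
    have h1 := cube_bij k h3
    exact (mulLeft_bijective₀ _ (neg_ne_zero.2 hNd)).comp h1
  have hκ : ∀ ρ : k, κ * (-(Algebra.norm k δ) * ρ ^ 3) =
      (Algebra.trace k F (μ * (algebraMap k F ρ * lam))) ^ 3 := by
    intro ρ
    rw [← trace_cube h3 hr, hκdef, mul_comm, ← trace_alg]
    congr 1
    rw [mul_pow, mul_pow, hμ, map_mul, map_neg, hNδ, map_pow]
    field_simp
  have ht2 : ∀ ρ : k, t ^ 3 * (-(Algebra.norm k δ) * ρ ^ 3) ^ 2 =
      (-tt * Algebra.norm k (algebraMap k F ρ * lam)) ^ 3 := by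
    intro ρ
    rw [mul_pow (-tt), neg_pow tt 3, htt, norm_alg hr, htdef]
    field_simp
  have hE1 : ∑ r : k, ψ (t ^ 3 * r ^ 2 + κ * r) =
      ∑ ρ : k, ψ (-tt * Algebra.norm k (algebraMap k F ρ * lam) +
        Algebra.trace k F (μ * (algebraMap k F ρ * lam))) := by
    symm
    refine Fintype.sum_bijective _ hbij _ _ ?_
    intro ρ
    rw [hκ, ht2, ← hψ]
    congr 1
    linear_combination ((-tt * Algebra.norm k (algebraMap k F ρ * lam)) ^ 2 *
      Algebra.trace k F (μ * (algebraMap k F ρ * lam)) +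
      (-tt * Algebra.norm k (algebraMap k F ρ * lam)) *
      Algebra.trace k F (μ * (algebraMap k F ρ * lam)) ^ 2) * h3
  have hE2 : ∑ r : k, ψ (-(t ^ 3 * r ^ 2) + κ * r) =
      ∑ ρ : k, ψ (tt * Algebra.norm k (algebraMap k F ρ * lam) +
        Algebra.trace k F (μ * (algebraMap k F ρ * lam))) := by
    symm
    refine Fintype.sum_bijective _ hbij _ _ ?_
    intro ρ
    rw [hκ, ht2, ← hψ]
    congr 1
    linear_combination ((tt * Algebra.norm k (algebraMap k F ρ * lam)) ^ 2 *
      Algebra.trace k F (μ * (algebraMap k F ρ * lam)) +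
      (tt * Algebra.norm k (algebraMap k F ρ * lam)) *
      Algebra.trace k F (μ * (algebraMap k F ρ * lam)) ^ 2) * h3
  rw [hE1, hE2, add_comm]

omit [Fintype k] in
theorem three_ne (h3 : (3 : k) = 0) : (2 : k) ≠ 0 := by
  intro h2
  have : (1 : k) = 0 := by linear_combination h3 - h2
  exact one_ne_zero this

omit [Fintype k] in
theorem psi_sum (h3 : (3 : k) = 0) (ψ : AddChar k ℂ) (u : k) (hu : ψ u ≠ 1) :
    ψ u + ψ (-u) = -1 := by
  have h1 : ψ u ^ 3 = 1 := by
    rw [← AddChar.map_nsmul_eq_pow, nsmul_eq_mul]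
    push_cast
    rw [h3, zero_mul, AddChar.map_zero_eq_one]
  have h2 : ψ u * ψ (-u) = 1 := by
    rw [← AddChar.map_add_eq_mul, add_neg_cancel, AddChar.map_zero_eq_one]
  have h4 : ψ u ^ 2 + ψ u + 1 = 0 := by
    have : (ψ u - 1) * (ψ u ^ 2 + ψ u + 1) = 0 := by linear_combination h1
    rcases mul_eq_zero.1 this with h | h
    · exact absurd (sub_eq_zero.1 h) hu
    · exact h
  have h5 : ψ u ≠ 0 := by
    intro h
    rw [h, zero_mul] at h2
    exact zero_ne_one h2
  apply mul_left_cancel₀ h5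
  linear_combination h4 + h2

/-- sums with the quadratic character. -/
theorem sum_quadChar (hF : ringChar F ≠ 2) (f : F → ℂ) :
    ∑ z : F, (quadraticChar F z : ℂ) * f z = ∑ y : F, f (y ^ 2) - ∑ z : F, f z := by
  have h1 : ∑ y : F, f (y ^ 2) = ∑ z : F, ((quadraticChar F z : ℂ) + 1) * f z := by
    rw [← Finset.sum_fiberwise_of_maps_to (s := (Finset.univ : Finset F))
      (t := (Finset.univ : Finset F)) (g := fun y : F => y ^ 2) (fun _ _ => Finset.mem_univ _)]
    refine Finset.sum_congr rfl ?_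
    intro z _
    rw [Finset.sum_congr rfl (g := fun _ => f z)
      (fun y hy => by rw [(Finset.mem_filter.1 hy).2])]
    rw [Finset.sum_const, nsmul_eq_mul]
    congr 1
    have h2 := quadraticChar_card_sqrts hF z
    have h3 : (Finset.univ.filter (fun y : F => y ^ 2 = z)).card =
        ({x : F | x ^ 2 = z} : Set F).toFinset.card := by
      congr 1
      ext y
      simp
    rw [h3]
    exact_mod_cast h2
  rw [h1, ← Finset.sum_sub_distrib]
  refine Finset.sum_congr rfl ?_
  intro z _
  ring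

theorem phi_bij (h3 : (3 : k) = 0) (hr : Module.finrank k F = 2) (i : k) (hi : i ^ 2 = -1) :
    Function.Bijective (fun t : F => t + algebraMap k F i * t ^ Fintype.card k) := by
  have h3' : (3 : F) = 0 := by
    rw [← map_ofNat (algebraMap k F) 3, h3, map_zero]
  have hi' : (algebraMap k F i) ^ 2 = -1 := by
    rw [← map_pow, hi, map_neg, map_one]
  have hinj : Function.Injective (fun t : F => t + algebraMap k F i * t ^ Fintype.card k) := by
    apply Function.LeftInverse.injective
      (g := fun z : F => -z + algebraMap k F i * z ^ Fintype.card k)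
    intro t
    simp only [bar_add, mul_pow, bar_alg, bar_bar hr]
    linear_combination t * hi' - t * h3'
  exact ⟨hinj, Finite.injective_iff_surjective.1 hinj⟩

theorem chi_alg (h3 : (3 : k) = 0) (hr : Module.finrank k F = 2) (ρ : k) (hρ : ρ ≠ 0) :
    quadraticChar F (algebraMap k F ρ) = 1 := by
  have hρ' : algebraMap k F ρ ≠ 0 := by
    intro h
    exact hρ ((map_eq_zero _).1 h)
  rw [quadraticChar_one_iff_isSquare hρ']
  obtain ⟨y, hy⟩ := FiniteField.norm_surjective k F ρ
  have hodd : Fintype.card k % 2 = 1 := by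
    apply FiniteField.odd_card_of_char_ne_two
    intro h
    have h2 : ((2 : ℕ) : k) = 0 := by
      rw [← h]
      exact CharP.cast_eq_zero k (ringChar k)
    exact three_ne h3 (by exact_mod_cast h2)
  refine ⟨y ^ ((Fintype.card k + 1) / 2), ?_⟩
  rw [← pow_add, ← hy, norm_eq hr, ← pow_succ']
  congr 1
  omega

theorem phi_scale (h3 : (3 : k) = 0) (hr : Module.finrank k F = 2) (i : k) (ρ : k) (hρ : ρ ≠ 0)
    (x : F) : phi k F i (algebraMap k F ρ * x) = phi k F i x := by
  unfold phi
  rw [mul_pow, bar_alg]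
  have : algebraMap k F ρ * x + algebraMap k F i * (algebraMap k F ρ * x ^ Fintype.card k) =
      algebraMap k F ρ * (x + algebraMap k F i * x ^ Fintype.card k) := by ring
  rw [this, map_mul, chi_alg h3 hr ρ hρ, one_mul]

theorem phi_zero (i : k) : phi k F i 0 = 0 := by
  unfold phi
  rw [zero_pow Fintype.card_ne_zero, mul_zero, add_zero]
  simp

/-- the twisted quadratic sum over `F`. -/
theorem sum_phi (h3 : (3 : k) = 0) (hr : Module.finrank k F = 2) (i : k) (hi : i ^ 2 = -1)
    (hF : ringChar F ≠ 2) (ψ : AddChar k ℂ) (a : k) (μ : F) :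
    ∑ x : F, (phi k F i x : ℂ) * ψ (a * Algebra.norm k x + Algebra.trace k F (μ * x)) =
      ∑ y : F, ψ (Algebra.trace k F (algebraMap k F (-(i * a)) * y ^ 4 +
        (-μ + algebraMap k F i * μ ^ Fintype.card k) * y ^ 2 + 0 * y)) -
      ∑ y : F, ψ (Algebra.trace k F (0 * y ^ 4 + algebraMap k F (-(i * a)) * y ^ 2 +
        (-μ + algebraMap k F i * μ ^ Fintype.card k) * y)) := by
  have h3' : (3 : F) = 0 := by
    rw [← map_ofNat (algebraMap k F) 3, h3, map_zero]
  have hi' : (algebraMap k F i) ^ 2 = -1 := by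
    rw [← map_pow, hi, map_neg, map_one]
  set f : F → ℂ := fun z => ψ (Algebra.trace k F (algebraMap k F (-(i * a)) * z ^ 2 +
        (-μ + algebraMap k F i * μ ^ Fintype.card k) * z)) with hf
  have h1 := sum_quadChar hF f
  have h2 : ∑ y : F, f (y ^ 2) = ∑ y : F, ψ (Algebra.trace k F (algebraMap k F (-(i * a)) * y ^ 4 +
        (-μ + algebraMap k F i * μ ^ Fintype.card k) * y ^ 2 + 0 * y)) := by
    refine Finset.sum_congr rfl ?_
    intro y _
    have e : algebraMap k F (-(i * a)) * (y ^ 2) ^ 2 +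
        (-μ + algebraMap k F i * μ ^ Fintype.card k) * y ^ 2 =
        algebraMap k F (-(i * a)) * y ^ 4 +
        (-μ + algebraMap k F i * μ ^ Fintype.card k) * y ^ 2 + 0 * y := by ring
    rw [← e]
  have h4 : ∑ y : F, f y = ∑ y : F, ψ (Algebra.trace k F (0 * y ^ 4 +
        algebraMap k F (-(i * a)) * y ^ 2 +
        (-μ + algebraMap k F i * μ ^ Fintype.card k) * y)) := by
    refine Finset.sum_congr rfl ?_
    intro y _
    have e : algebraMap k F (-(i * a)) * y ^ 2 +
        (-μ + algebraMap k F i * μ ^ Fintype.card k) * y =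
        0 * y ^ 4 + algebraMap k F (-(i * a)) * y ^ 2 +
        (-μ + algebraMap k F i * μ ^ Fintype.card k) * y := by ring
    rw [← e]
  rw [← h2, ← h4, ← h1]
  refine Fintype.sum_bijective _ (phi_bij h3 hr i hi) _ _ ?_
  intro x
  have hid : a * Algebra.norm k x + Algebra.trace k F (μ * x) =
      Algebra.trace k F (algebraMap k F (-(i * a)) *
        (x + algebraMap k F i * x ^ Fintype.card k) ^ 2 +
        (-μ + algebraMap k F i * μ ^ Fintype.card k) *
        (x + algebraMap k F i * x ^ Fintype.card k)) := by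
    have bneg : (-μ) ^ Fintype.card k = - μ ^ Fintype.card k :=
      (FiniteField.frobeniusAlgHom k F).map_neg μ
    have e1 : (x + algebraMap k F i * x ^ Fintype.card k) ^ Fintype.card k =
        x ^ Fintype.card k + algebraMap k F i * x := by
      rw [bar_add, mul_pow, bar_alg, bar_bar hr]
    have e2 : (-μ + algebraMap k F i * μ ^ Fintype.card k) ^ Fintype.card k =
        -μ ^ Fintype.card k + algebraMap k F i * μ := by
      rw [bar_add, mul_pow, bar_alg, bar_bar hr, bneg]
    apply (algebraMap k F).injective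
    rw [map_add, map_mul, norm_eq hr, trace_eq hr, trace_eq hr, bar_add, mul_pow, mul_pow _ _ _,
      mul_pow (-μ + algebraMap k F i * μ ^ Fintype.card k), bar_alg, ← pow_mul,
      mul_comm 2 (Fintype.card k), pow_mul, e1, e2, map_neg, map_mul]
    generalize x ^ Fintype.card k = y
    generalize μ ^ Fintype.card k = ν
    generalize algebraMap k F a = A
    linear_combination (-(A * x * y) + μ * x + ν * y) * h3' +
      (algebraMap k F i * A * (x ^ 2 + y ^ 2) + 4 * A * x * y - (ν * y + μ * x)) * hi'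
  unfold phi
  rw [hid]

theorem card_facts (h3 : (3 : k) = 0) (hr : Module.finrank k F = 2) :
    ∃ m : ℕ, Fintype.card k = 3 ^ m ∧ Fintype.card F = 3 ^ (2 * m) := by
  have h3n : ((3 : ℕ) : k) = 0 := by exact_mod_cast h3
  have : CharP k 3 := ringChar.of_eq (CharP.ringChar_of_prime_eq_zero (by norm_num) h3n)
  obtain ⟨m, _, hm⟩ := FiniteField.card k 3
  refine ⟨m, hm, ?_⟩
  rw [Module.card_eq_pow_finrank (K := k) (V := F), hr, hm, ← pow_mul, mul_comm]

end

theorem exists_w : ∃ w : ℂ, w ^ 2 + w + 1 = 0 ∧ w.im ≠ 0 := by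
  have hs : (Real.sqrt 3) ^ 2 = 3 := Real.sq_sqrt (by norm_num)
  refine ⟨⟨-1 / 2, Real.sqrt 3 / 2⟩, ?_, ?_⟩
  · apply Complex.ext
    · simp only [pow_two, Complex.add_re, Complex.mul_re, Complex.one_re, Complex.zero_re]
      nlinarith
    · simp only [pow_two, Complex.add_im, Complex.mul_im, Complex.one_im, Complex.zero_im]
      ring
  · simp only
    positivity

theorem goalW (hAS : GoalAS) (hDiv : GoalDiv) : GoalW := by
  intro k F _ _ _ _ _ h3 hr i hi δ hδ hδq β hβ ν hν
  have hNd : Algebra.norm k δ ≠ 0 := Algebra.norm_ne_zero_iff.2 hδ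
  have h3F : (3 : F) = 0 := by
    rw [← map_ofNat (algebraMap k F) 3, h3, map_zero]
  have hF2 : ringChar F ≠ 2 := by
    intro h
    have h2 : ((2 : ℕ) : F) = 0 := by
      rw [← h]
      exact CharP.cast_eq_zero F (ringChar F)
    exact three_ne h3F (by exact_mod_cast h2)
  -- the additive character
  obtain ⟨ψ, hψ, hψu⟩ := exists_psi k h3 (Algebra.norm k ν / β ^ 3) (by
    intro v hv
    apply hν v
    rw [hv]
    field_simp)
  have hψ1 : ψ ≠ 1 := by
    rintro rfl
    exact hψu (AddChar.one_apply _)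
  obtain ⟨tt, htt⟩ := (cube_bij k h3).2 (- (β ^ 3 / Algebra.norm k δ))
  obtain ⟨μ, hμ⟩ := (cube_bij F h3F).2 (ν / δ)
  simp only at htt hμ
  have htt0 : tt ≠ 0 := by
    rintro rfl
    rw [zero_pow (by norm_num)] at htt
    exact (neg_ne_zero.2 (div_ne_zero (pow_ne_zero 3 hβ) hNd)) htt.symm
  have hW := fun lam hlam => WW_eq hAS h3 hr δ hδ hδq β hβ ν ψ hψ1 hψ tt htt μ hμ lam hlam
  set q : ℂ := (Fintype.card k : ℂ) with hq
  have hqF : (Fintype.card F : ℂ) = q ^ 2 := by
    rw [Module.card_eq_pow_finrank (K := k) (V := F), hr]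
    push_cast
    rfl
  have hq1 : q - 1 ≠ 0 := by
    have : 1 < Fintype.card k := Fintype.one_lt_card
    intro h
    have h' : (Fintype.card k : ℂ) = 1 := by linear_combination h
    have h'' : Fintype.card k = 1 := by exact_mod_cast h'
    omega
  have hq0 : q ≠ 0 := by
    rw [hq]
    exact_mod_cast Fintype.card_ne_zero
  -- general sum
  have hgen : ∀ w : F → ℂ, (∀ ρ : k, ρ ≠ 0 → ∀ x, w (algebraMap k F ρ * x) = w x) →
      ∑ lam ∈ Finset.univ.erase (0 : F), w lam * (WW k F δ β ν lam : ℂ) =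
        2 * (∑ lam ∈ Finset.univ.erase (0 : F), w lam) +
        (q - 1) * (∑ x ∈ Finset.univ.erase (0 : F), w x *
          ψ (tt * Algebra.norm k x + Algebra.trace k F (μ * x)) +
          ∑ x ∈ Finset.univ.erase (0 : F), w x *
          ψ (-tt * Algebra.norm k x + Algebra.trace k F (μ * x))) := by
    intro w hw
    have s1 := sum_scale w (fun x => ψ (tt * Algebra.norm k x + Algebra.trace k F (μ * x))) hw
    have s2 := sum_scale w (fun x => ψ (-tt * Algebra.norm k x + Algebra.trace k F (μ * x))) hw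
    rw [Finset.sum_congr rfl (fun lam hlam => by
      rw [hW lam (Finset.ne_of_mem_erase hlam), mul_add]), Finset.sum_add_distrib, s1, s2]
    simp only [Algebra.norm_zero, mul_zero, map_zero, add_zero, AddChar.map_zero_eq_one, mul_one]
    ring
  constructor
  · -- part (a)
    have h1 := hgen (fun _ => 1) (fun _ _ _ => rfl)
    simp only [one_mul] at h1
    have e1 : ∑ x ∈ Finset.univ.erase (0 : F),
        ψ (tt * Algebra.norm k x + Algebra.trace k F (μ * x)) =
        - q * ψ (- (Algebra.norm k μ / tt)) - 1 := by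
      have := sum_quad hr ψ hψ1 tt htt0 μ
      rw [← Finset.add_sum_erase Finset.univ _ (Finset.mem_univ (0 : F))] at this
      simp only [Algebra.norm_zero, mul_zero, map_zero, add_zero, AddChar.map_zero_eq_one] at this
      linear_combination this
    have e2 : ∑ x ∈ Finset.univ.erase (0 : F),
        ψ (-tt * Algebra.norm k x + Algebra.trace k F (μ * x)) =
        - q * ψ (Algebra.norm k μ / tt) - 1 := by
      have := sum_quad hr ψ hψ1 (-tt) (neg_ne_zero.2 htt0) μ
      rw [← Finset.add_sum_erase Finset.univ _ (Finset.mem_univ (0 : F))] at this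
      simp only [Algebra.norm_zero, mul_zero, map_zero, add_zero, AddChar.map_zero_eq_one,
        div_neg, neg_neg] at this
      linear_combination this
    have e3 : ψ (Algebra.norm k μ / tt) ≠ 1 := by
      rw [← hψ]
      have : (Algebra.norm k μ / tt) ^ 3 = - (Algebra.norm k ν / β ^ 3) := by
        have hdiv : Algebra.norm k (ν / δ) = Algebra.norm k ν / Algebra.norm k δ := by
          rw [eq_div_iff hNd, ← map_mul, div_mul_cancel₀ _ hδ]
        rw [div_pow, htt, ← map_pow, hμ, hdiv]
        field_simp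
      rw [this, AddChar.map_neg_eq_inv]
      intro h
      exact hψu (inv_eq_one.1 h)
    have e4 := psi_sum h3 ψ _ e3
    rw [e1, e2, Finset.sum_const, Finset.card_erase_of_mem (Finset.mem_univ _), Finset.card_univ,
      nsmul_eq_mul, Nat.cast_sub Fintype.card_pos, Nat.cast_one, mul_one, hqF] at h1
    have h5 : ((∑ lam ∈ Finset.univ.erase (0 : F), WW k F δ β ν lam : ℤ) : ℂ) =
        ((3 * Fintype.card k * (Fintype.card k - 1) : ℤ) : ℂ) := by
      push_cast
      rw [h1]
      linear_combination (-q * (q - 1)) * e4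
    exact_mod_cast h5
  · -- part (b)
    have h1 := hgen (fun x => (phi k F i x : ℂ)) (fun ρ hρ x => by
      rw [phi_scale h3 hr i ρ hρ x])
    have hsum0 : ∑ lam ∈ Finset.univ.erase (0 : F), (phi k F i lam : ℂ) = 0 := by
      have e : ∑ lam : F, (phi k F i lam : ℂ) = 0 := by
        have e' : ∑ lam : F, phi k F i lam = 0 := by
          rw [← quadraticChar_sum_zero hF2]
          exact Fintype.sum_bijective _ (phi_bij h3 hr i hi) _ _ (fun _ => rfl)
        exact_mod_cast e'
      rw [← Finset.add_sum_erase Finset.univ _ (Finset.mem_univ (0 : F)), phi_zero] at e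
      simpa using e
    have hfull : ∀ a : k, ∑ x ∈ Finset.univ.erase (0 : F), (phi k F i x : ℂ) *
        ψ (a * Algebra.norm k x + Algebra.trace k F (μ * x)) =
        ∑ x : F, (phi k F i x : ℂ) *
        ψ (a * Algebra.norm k x + Algebra.trace k F (μ * x)) := by
      intro a
      rw [← Finset.add_sum_erase Finset.univ _ (Finset.mem_univ (0 : F)), phi_zero]
      simp
    obtain ⟨m, hm1, hm2⟩ := card_facts h3 hr
    obtain ⟨w, hw1, hw2⟩ := exists_w
    let ψF : AddChar F ℂ := ψ.compAddMonoidHom (Algebra.trace k F).toAddMonoidHom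
    have hψF : ∀ x, ψF x = ψ (Algebra.trace k F x) := fun x => rfl
    have hD := hDiv F h3F m hm2 ψF w hw1
    simp only [hψF] at hD
    have hA : ∀ a : k, ∃ A B : ℤ, ∑ x : F, (phi k F i x : ℂ) *
        ψ (a * Algebra.norm k x + Algebra.trace k F (μ * x)) = q * (A + B * w) := by
      intro a
      rw [sum_phi h3 hr i hi hF2 ψ a μ]
      obtain ⟨A1, B1, h1⟩ := hD (algebraMap k F (-(i * a)))
        (-μ + algebraMap k F i * μ ^ Fintype.card k) 0
      obtain ⟨A2, B2, h2⟩ := hD 0 (algebraMap k F (-(i * a)))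
        (-μ + algebraMap k F i * μ ^ Fintype.card k)
      rw [h1, h2]
      refine ⟨A1 - A2, B1 - B2, ?_⟩
      rw [hq, hm1]
      push_cast
      ring
    obtain ⟨A1, B1, hA1⟩ := hA tt
    obtain ⟨A2, B2, hA2⟩ := hA (-tt)
    rw [hsum0, hfull, hfull, hA1, hA2] at h1
    have h6 : ((∑ lam ∈ Finset.univ.erase (0 : F), phi k F i lam * WW k F δ β ν lam : ℤ) : ℂ) =
        (q - 1) * q * ((A1 + A2 : ℤ) + (B1 + B2 : ℤ) * w) := by
      push_cast
      rw [h1]
      ring
    have h7 : (B1 + B2 : ℤ) = 0 := by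
      have h8 := congrArg Complex.im h6
      have h9 : (q - 1) * q * ((A1 + A2 : ℤ) + (B1 + B2 : ℤ) * w) =
          (((((Fintype.card k : ℝ) - 1) * (Fintype.card k : ℝ)) : ℝ) : ℂ) *
            (((A1 + A2 : ℤ) : ℝ) + (((B1 + B2 : ℤ) : ℝ) : ℂ) * w) := by
        rw [hq]
        push_cast
        ring
      rw [h9, Complex.im_ofReal_mul, Complex.add_im, Complex.im_ofReal_mul] at h8
      rw [Complex.intCast_im, Complex.ofReal_im, zero_add] at h8
      have hk1 : (1 : ℝ) < (Fintype.card k : ℝ) := by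
        exact_mod_cast (Fintype.one_lt_card : 1 < Fintype.card k)
      have h11 : ((Fintype.card k : ℝ) - 1) * (Fintype.card k : ℝ) ≠ 0 :=
        mul_ne_zero (by linarith) (by linarith)
      have h12 : (((B1 + B2 : ℤ) : ℝ)) * w.im = 0 := by
        rcases mul_eq_zero.1 h8.symm with h | h
        · exact absurd h h11
        · exact h
      rcases mul_eq_zero.1 h12 with h | h
      · exact_mod_cast h
      · exact absurd h hw2
    refine ⟨A1 + A2, ?_⟩
    have h10 : ((∑ lam ∈ Finset.univ.erase (0 : F), phi k F i lam * WW k F δ β ν lam : ℤ) : ℂ) =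
        (((Fintype.card k - 1) * (Fintype.card k * (A1 + A2)) : ℤ) : ℂ) := by
      rw [h6, h7]
      push_cast
      rw [hq]
      ring
    exact_mod_cast h10

end Pool.Agent.Helper50.Hemi
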